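import Pool.Agent.helper15.DH.Spec

set_option autoImplicit false

open Complex MeasureTheory

namespace Pool.Agent.DH

open Pool.Agent.helper84.DM Pool.Agent.helper78.ED

theorem SHV_add {n : ℕ} (hn : n ≠ 0) (u v : ℝ) :
    (n : ℂ) ^ (-(((u + v : ℝ) : ℂ) * I)) =
      (n : ℂ) ^ (-((u : ℂ) * I)) * (n : ℂ) ^ (-((v : ℂ) * I)) := by
  rw [← Complex.cpow_add _ _ (by exact_mod_cast hn)]
  congr 1
  push_cast
  ring

theorem SHV_norm {n : ℕ} (hn : n ≠ 0) (v : ℝ) : ‖(n : ℂ) ^ (-((v : ℂ) * I))‖ = 1 := by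
  rw [Complex.norm_natCast_cpow_of_pos (Nat.pos_of_ne_zero hn)]
  simp

theorem SHV (hR : RID_stmt) : SHV_stmt := by
  intro Z B w v h0 hw
  have hne : ∀ n ∈ B, n ≠ 0 := fun n hn h => h0 (h ▸ hn)
  -- the left side as a complex number
  have key : ((∑ ρ ∈ Z, ∑ ρ' ∈ Z,
      ‖∑ n ∈ B, (w n : ℂ) * (n : ℂ) ^ (-(((ρ.im - ρ'.im + v : ℝ) : ℂ) * I))‖ ^ 2 : ℝ) : ℂ) =
      ∑ n ∈ B, ∑ m ∈ B, ((w n : ℂ) * (w m : ℂ) * ((n : ℂ) ^ (-((v : ℂ) * I)) *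
        (starRingEnd ℂ) ((m : ℂ) ^ (-((v : ℂ) * I))))) *
          ((‖RR Z (fun _ => 1) n m‖ ^ 2 : ℝ) : ℂ) := by
    have h1 : ∀ ρ ∈ Z, ∀ ρ' ∈ Z,
        ((‖∑ n ∈ B, (w n : ℂ) * (n : ℂ) ^ (-(((ρ.im - ρ'.im + v : ℝ) : ℂ) * I))‖ ^ 2 : ℝ) : ℂ) =
        ∑ n ∈ B, ∑ m ∈ B, ((w n : ℂ) * (w m : ℂ) * ((n : ℂ) ^ (-((v : ℂ) * I)) *
        (starRingEnd ℂ) ((m : ℂ) ^ (-((v : ℂ) * I))))) *
          ((n : ℂ) ^ (-(((ρ.im - ρ'.im : ℝ) : ℂ) * I)) *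
            (starRingEnd ℂ) ((m : ℂ) ^ (-(((ρ.im - ρ'.im : ℝ) : ℂ) * I)))) := by
      intro ρ _ ρ' _
      rw [Complex.ofReal_pow, ← Complex.mul_conj', map_sum, Finset.sum_mul_sum]
      refine Finset.sum_congr rfl fun n hn => Finset.sum_congr rfl fun m hm => ?_
      rw [SHV_add (hne n hn), SHV_add (hne m hm), map_mul, map_mul, Complex.conj_ofReal]
      ring
    rw [Complex.ofReal_sum]
    rw [Finset.sum_congr rfl (fun ρ hρ => by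
      rw [Complex.ofReal_sum, Finset.sum_congr rfl (fun ρ' hρ' => h1 ρ hρ ρ' hρ')])]
    -- exchange the sums
    have h2 : ∀ n ∈ B, ∀ m ∈ B, ((‖RR Z (fun _ => 1) n m‖ ^ 2 : ℝ) : ℂ) =
        ∑ ρ ∈ Z, ∑ ρ' ∈ Z, ((n : ℂ) ^ (-(((ρ.im - ρ'.im : ℝ) : ℂ) * I)) *
            (starRingEnd ℂ) ((m : ℂ) ^ (-(((ρ.im - ρ'.im : ℝ) : ℂ) * I)))) := by
      intro n hn m hm
      rw [hR Z (fun _ => 1) n m (Nat.pos_of_ne_zero (hne n hn)) (Nat.pos_of_ne_zero (hne m hm))]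
      refine Finset.sum_congr rfl fun ρ _ => Finset.sum_congr rfl fun ρ' _ => ?_
      simp
    calc _ = ∑ ρ ∈ Z, ∑ n ∈ B, ∑ m ∈ B, ∑ ρ' ∈ Z,
          ((w n : ℂ) * (w m : ℂ) * ((n : ℂ) ^ (-((v : ℂ) * I)) *
        (starRingEnd ℂ) ((m : ℂ) ^ (-((v : ℂ) * I))))) *
          ((n : ℂ) ^ (-(((ρ.im - ρ'.im : ℝ) : ℂ) * I)) *
            (starRingEnd ℂ) ((m : ℂ) ^ (-(((ρ.im - ρ'.im : ℝ) : ℂ) * I)))) := by
          refine Finset.sum_congr rfl fun ρ _ => ?_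
          rw [Finset.sum_comm]
          refine Finset.sum_congr rfl fun n _ => ?_
          rw [Finset.sum_comm]
      _ = _ := by
          rw [Finset.sum_comm]
          refine Finset.sum_congr rfl fun n hn => ?_
          rw [Finset.sum_comm]
          refine Finset.sum_congr rfl fun m hm => ?_
          rw [h2 n hn m hm, Finset.mul_sum]
          refine Finset.sum_congr rfl fun ρ _ => ?_
          rw [Finset.mul_sum]
  have hnn : (0 : ℝ) ≤ ∑ ρ ∈ Z, ∑ ρ' ∈ Z,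
      ‖∑ n ∈ B, (w n : ℂ) * (n : ℂ) ^ (-(((ρ.im - ρ'.im + v : ℝ) : ℂ) * I))‖ ^ 2 :=
    Finset.sum_nonneg fun _ _ => Finset.sum_nonneg fun _ _ => by positivity
  rw [← Real.norm_of_nonneg hnn, ← Complex.norm_real, key]
  refine (norm_sum_le _ _).trans (Finset.sum_le_sum fun n hn => ?_)
  refine (norm_sum_le _ _).trans (Finset.sum_le_sum fun m hm => le_of_eq ?_)
  rw [norm_mul, norm_mul, norm_mul, norm_mul, Complex.norm_conj, SHV_norm (hne n hn),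
    SHV_norm (hne m hm), Complex.norm_real, Complex.norm_real, Complex.norm_real,
    Real.norm_of_nonneg (hw n), Real.norm_of_nonneg (hw m), Real.norm_of_nonneg (by positivity)]
  ring

end Pool.Agent.DH
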