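import Pool.Agent.helper15.DH.Spec

set_option autoImplicit false

open Complex MeasureTheory

namespace Pool.Agent.DH

open Pool.Agent.helper84.DM Pool.Agent.helper78.ED

/-- The real identity. -/
theorem TAY_real {N n : ℝ} (hN : 0 < N) (hn : 0 < n) (σ b : ℝ) :
    N ^ b * n ^ (-b) = (N / n) ^ σ * Real.exp (-((b - σ) * Real.log (n / N))) := by
  have h1 : N ^ b * n ^ (-b) = (N / n) ^ b := by
    rw [Real.rpow_neg hn.le, Real.div_rpow hN.le hn.le]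
    rfl
  have h2 : Real.exp (-((b - σ) * Real.log (n / N))) = (N / n) ^ (b - σ) := by
    rw [Real.rpow_def_of_pos (div_pos hN hn)]
    congr 1
    rw [← inv_div n N, Real.log_inv]
    ring
  rw [h1, h2, ← Real.rpow_add (div_pos hN hn)]
  congr 1
  ring

theorem TAY_term {N n : ℕ} (hN : 0 < N) (hn : 0 < n) (σ : ℝ) (ρ : ℂ) :
    ((((N : ℝ) ^ ρ.re : ℝ)) : ℂ) * (n : ℂ) ^ (-ρ) =
      ((((N : ℝ) / n) ^ σ * Real.exp (-((ρ.re - σ) * Real.log ((n : ℝ) / N))) : ℝ) : ℂ) *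
        (n : ℂ) ^ (-((ρ.im : ℂ) * I)) := by
  have hN' : (0 : ℝ) < N := by exact_mod_cast hN
  have hn' : (0 : ℝ) < n := by exact_mod_cast hn
  have hn0 : (n : ℂ) ≠ 0 := by exact_mod_cast hn.ne'
  rw [← TAY_real hN' hn' σ ρ.re]
  have h1 : -ρ = ((-ρ.re : ℝ) : ℂ) + (-((ρ.im : ℂ) * I)) := by
    conv_lhs => rw [← Complex.re_add_im ρ]
    push_cast
    ring
  have h2 : (n : ℂ) ^ (((-ρ.re : ℝ) : ℂ)) = (((n : ℝ) ^ (-ρ.re) : ℝ) : ℂ) := by
    rw [Complex.ofReal_cpow hn'.le]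
    norm_num
  conv_lhs => rw [h1, Complex.cpow_add _ _ hn0, h2]
  push_cast
  ring

/-- Taylor. -/
theorem TAY_taylor {y : ℝ} (h0 : 0 ≤ y) (h1 : y ≤ 1 / 2) {J : ℕ} (hJ : 0 < J) :
    |Real.exp (-y) - ∑ j ∈ Finset.range J, (-y) ^ j / (j.factorial : ℝ)| ≤ 2 * (1 / 2) ^ J := by
  have h2 : |(-y)| ≤ 1 := by rw [abs_neg, abs_of_nonneg h0]; linarith
  have h3 := Real.exp_bound h2 hJ
  refine h3.trans ?_
  rw [abs_neg, abs_of_nonneg h0]
  have h4 : ((J.succ : ℝ) / ((J.factorial : ℝ) * J)) ≤ 2 := by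
    have hJ' : (1 : ℝ) ≤ J := by exact_mod_cast hJ
    have hf : (1 : ℝ) ≤ J.factorial := by exact_mod_cast Nat.factorial_pos J
    rw [div_le_iff₀ (by positivity)]
    push_cast
    nlinarith
  have h5 : y ^ J ≤ (1 / 2) ^ J := pow_le_pow_left₀ h0 h1 J
  have h6 : (0 : ℝ) ≤ (1 / 2) ^ J := by positivity
  calc y ^ J * ((J.succ : ℝ) / ((J.factorial : ℝ) * J)) ≤ (1 / 2) ^ J * 2 :=
        mul_le_mul h5 h4 (by positivity) h6
    _ = 2 * (1 / 2) ^ J := by ring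

theorem TAY_geom {x : ℝ} (h0 : 0 ≤ x) (h1 : x ≤ 1 / 2) (J : ℕ) :
    ∑ j ∈ Finset.range J, x ^ j / (j.factorial : ℝ) ≤ 2 := by
  have h2 : ∀ j ∈ Finset.range J, x ^ j / (j.factorial : ℝ) ≤ (1 / 2) ^ j := by
    intro j _
    have hf : (1 : ℝ) ≤ j.factorial := by exact_mod_cast Nat.factorial_pos j
    have h3 : x ^ j ≤ (1 / 2) ^ j := pow_le_pow_left₀ h0 h1 j
    have h4 : 0 ≤ x ^ j := pow_nonneg h0 j
    exact (div_le_self h4 hf).trans h3
  refine (Finset.sum_le_sum h2).trans ?_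
  have h5 := sum_geometric_two_le J
  simpa using h5

theorem TAY_pow {T : ℝ} (hT : 1 < T) {J : ℕ} (hJ : 8 * Real.log T ≤ J) :
    (1 / 2 : ℝ) ^ J ≤ 1 / T ^ (5 : ℕ) := by
  have hlog : 0 < Real.log T := Real.log_pos hT
  have hT0 : 0 < T := by linarith
  have h1 : (1 / 2 : ℝ) ^ J = Real.exp (-(J * Real.log 2)) := by
    rw [← Real.rpow_natCast, Real.rpow_def_of_pos (by norm_num)]
    congr 1
    rw [show (1 / 2 : ℝ) = 2⁻¹ by norm_num, Real.log_inv]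
    ring
  have h2 : 1 / T ^ (5 : ℕ) = Real.exp (-(5 * Real.log T)) := by
    rw [Real.exp_neg, one_div]
    congr 1
    rw [mul_comm, Real.exp_mul, Real.exp_log hT0]
    norm_cast
  rw [h1, h2, Real.exp_le_exp]
  have h3 := Real.log_two_gt_d9
  nlinarith

theorem TAY : TAY_stmt := by
  intro C₁ hC₁
  refine ⟨2 * C₁ + 3, ?_⟩
  intro T κ σ hT hκ0 hκ1 hσ c N hN hNT hc ρ hρ1 hρ2 hD
  by_contra hcon
  push Not at hcon
  have hT1 : 1 < T := by linarith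
  have hT0 : 0 < T := by linarith
  have hlog : 0 < Real.log T := Real.log_pos hT1
  have hN0 : 0 < N := hN
  have hN1 : (1 : ℝ) ≤ N := by exact_mod_cast hN
  set J := ⌊8 * Real.log T⌋₊ + 1 with hJdef
  have hJ : 8 * Real.log T ≤ J := by
    have := Nat.lt_floor_add_one (8 * Real.log T)
    rw [hJdef]
    push_cast
    exact this.le
  set x := ρ.re - σ with hx
  have hx0 : 0 ≤ x := by rw [hx]; linarith
  have hx1 : x ≤ 1 / 2 := by rw [hx]; linarith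
  set B := (N : ℝ) ^ σ / (4 * C₁ * Real.log T) with hB
  have hNσ : 1 ≤ (N : ℝ) ^ σ := Real.one_le_rpow hN1 (by linarith)
  set γ := ρ.im with hγ
  -- the error terms
  let u : ℕ → ℝ := fun n => Real.log ((n : ℝ) / N)
  let E : ℕ → ℝ := fun n => Real.exp (-(x * u n)) -
    ∑ j ∈ Finset.range J, (-(x * u n)) ^ j / (j.factorial : ℝ)
  have hmem : ∀ n ∈ Finset.Ioc N (2 * N), 0 < n ∧ 0 ≤ u n ∧ u n ≤ 1 ∧
      0 ≤ ((N : ℝ) / n) ^ σ ∧ ((N : ℝ) / n) ^ σ ≤ 1 := by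
    intro n hn
    rw [Finset.mem_Ioc] at hn
    have hn0 : 0 < n := by omega
    have hn' : (0 : ℝ) < n := by exact_mod_cast hn0
    have h1 : (N : ℝ) ≤ n := by exact_mod_cast hn.1.le
    have h2 : (n : ℝ) ≤ 2 * N := by exact_mod_cast hn.2
    have hNpos : (0 : ℝ) < N := by linarith
    have h3 : 1 ≤ (n : ℝ) / N := by rw [le_div_iff₀ hNpos]; linarith
    have h4 : (n : ℝ) / N ≤ 2 := by rw [div_le_iff₀ hNpos]; linarith
    refine ⟨hn0, Real.log_nonneg h3, ?_, Real.rpow_nonneg (by positivity) _, ?_⟩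
    · have := Real.log_le_log (by linarith) h4
      have h5 := Real.log_two_lt_d9
      show Real.log ((n : ℝ) / N) ≤ 1
      linarith
    · refine Real.rpow_le_one (by positivity) ?_ (by linarith)
      rw [div_le_one hn']
      exact h1
  have hE : ∀ n ∈ Finset.Ioc N (2 * N), |E n| ≤ 2 * (1 / 2) ^ J := by
    intro n hn
    obtain ⟨-, h1, h2, -, -⟩ := hmem n hn
    refine TAY_taylor (mul_nonneg hx0 h1) ?_ (by omega)
    calc x * u n ≤ x * 1 := mul_le_mul_of_nonneg_left h2 hx0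
      _ ≤ 1 / 2 := by linarith
  -- the main identity
  have main : ((((N : ℝ) ^ ρ.re : ℝ)) : ℂ) * ∑ n ∈ Finset.Ioc N (2 * N), c n * (n : ℂ) ^ (-ρ) =
      ∑ j ∈ Finset.range J, ((((-x) ^ j / (j.factorial : ℝ) : ℝ)) : ℂ) *
        DP N (fun n => c n * ((((N : ℝ) / n) ^ σ * Real.log ((n : ℝ) / N) ^ j : ℝ) : ℂ)) γ +
      ∑ n ∈ Finset.Ioc N (2 * N), c n * ((((N : ℝ) / n) ^ σ * E n : ℝ) : ℂ) *
        (n : ℂ) ^ (-((γ : ℂ) * I)) := by
    have h1 : ∀ n ∈ Finset.Ioc N (2 * N), ((((N : ℝ) ^ ρ.re : ℝ)) : ℂ) * (c n * (n : ℂ) ^ (-ρ)) =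
        (∑ j ∈ Finset.range J, ((((-x) ^ j / (j.factorial : ℝ) : ℝ)) : ℂ) *
          (c n * ((((N : ℝ) / n) ^ σ * Real.log ((n : ℝ) / N) ^ j : ℝ) : ℂ) *
            (n : ℂ) ^ (-((γ : ℂ) * I)))) +
        c n * ((((N : ℝ) / n) ^ σ * E n : ℝ) : ℂ) * (n : ℂ) ^ (-((γ : ℂ) * I)) := by
      intro n hn
      obtain ⟨hn0, -⟩ := hmem n hn
      have e1 : ((((N : ℝ) ^ ρ.re : ℝ)) : ℂ) * (c n * (n : ℂ) ^ (-ρ)) =
          c n * (((((N : ℝ) ^ ρ.re : ℝ)) : ℂ) * (n : ℂ) ^ (-ρ)) := by ring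
      rw [e1, TAY_term hN0 hn0 σ ρ]
      have e2 : Real.exp (-((ρ.re - σ) * Real.log ((n : ℝ) / N))) =
          (∑ j ∈ Finset.range J, (-x) ^ j / (j.factorial : ℝ) * u n ^ j) + E n := by
        have e3 : ∑ j ∈ Finset.range J, (-x) ^ j / (j.factorial : ℝ) * u n ^ j =
            ∑ j ∈ Finset.range J, (-(x * u n)) ^ j / (j.factorial : ℝ) := by
          refine Finset.sum_congr rfl fun j _ => ?_
          rw [← neg_mul, mul_pow]
          ring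
        rw [e3]
        show Real.exp (-(x * u n)) = _ + (Real.exp (-(x * u n)) - _)
        ring
      rw [e2]
      push_cast
      simp only [mul_add, add_mul, Finset.mul_sum, Finset.sum_mul]
      congr 1
      · refine Finset.sum_congr rfl fun j _ => ?_
        ring
      · ring
    rw [Finset.mul_sum, Finset.sum_congr rfl h1, Finset.sum_add_distrib]
    congr 1
    rw [Finset.sum_comm]
    refine Finset.sum_congr rfl fun j _ => ?_
    unfold DP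
    rw [Finset.mul_sum]
  -- bounds
  have hγn : ∀ n : ℕ, 0 < n → ‖(n : ℂ) ^ (-((γ : ℂ) * I))‖ = 1 := by
    intro n hn
    rw [Complex.norm_natCast_cpow_of_pos hn]
    simp
  have b1 : ‖∑ n ∈ Finset.Ioc N (2 * N), c n * ((((N : ℝ) / n) ^ σ * E n : ℝ) : ℂ) *
        (n : ℂ) ^ (-((γ : ℂ) * I))‖ ≤ N * (C₁ * T ^ κ * (2 * (1 / 2) ^ J)) := by
    refine (norm_sum_le _ _).trans ?_
    have h2 : ∀ n ∈ Finset.Ioc N (2 * N), ‖c n * ((((N : ℝ) / n) ^ σ * E n : ℝ) : ℂ) *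
        (n : ℂ) ^ (-((γ : ℂ) * I))‖ ≤ C₁ * T ^ κ * (2 * (1 / 2) ^ J) := by
      intro n hn
      obtain ⟨hn0, -, -, h3, h4⟩ := hmem n hn
      rw [norm_mul, norm_mul, hγn n hn0, mul_one, Complex.norm_real, norm_mul,
        Real.norm_of_nonneg h3, Real.norm_eq_abs]
      have h5 : ((N : ℝ) / n) ^ σ * |E n| ≤ 2 * (1 / 2) ^ J := by
        calc ((N : ℝ) / n) ^ σ * |E n| ≤ 1 * |E n| :=
              mul_le_mul_of_nonneg_right h4 (abs_nonneg _)
          _ ≤ _ := by rw [one_mul]; exact hE n hn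
      exact mul_le_mul (hc n hn) h5 (mul_nonneg h3 (abs_nonneg _)) (by positivity)
    refine (Finset.sum_le_sum h2).trans (le_of_eq ?_)
    rw [Finset.sum_const, Nat.card_Ioc, nsmul_eq_mul]
    congr 2
    omega
  have hBpos : 0 < B := by positivity
  have b2 : ‖∑ j ∈ Finset.range J, ((((-x) ^ j / (j.factorial : ℝ) : ℝ)) : ℂ) *
        DP N (fun n => c n * ((((N : ℝ) / n) ^ σ * Real.log ((n : ℝ) / N) ^ j : ℝ) : ℂ)) γ‖ ≤
      2 * B := by
    refine (norm_sum_le _ _).trans ?_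
    have h2 : ∀ j ∈ Finset.range J, ‖((((-x) ^ j / (j.factorial : ℝ) : ℝ)) : ℂ) *
        DP N (fun n => c n * ((((N : ℝ) / n) ^ σ * Real.log ((n : ℝ) / N) ^ j : ℝ) : ℂ)) γ‖ ≤
        x ^ j / (j.factorial : ℝ) * B := by
      intro j hj
      rw [norm_mul, Complex.norm_real, norm_div, norm_pow, norm_neg, Real.norm_of_nonneg hx0,
        Real.norm_of_nonneg (Nat.cast_nonneg _)]
      exact mul_le_mul_of_nonneg_left (hcon j hj).le (by positivity)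
    refine (Finset.sum_le_sum h2).trans ?_
    rw [← Finset.sum_mul]
    exact mul_le_mul_of_nonneg_right (TAY_geom hx0 hx1 J) hBpos.le
  have b3 : 4 * B ≤ ‖((((N : ℝ) ^ ρ.re : ℝ)) : ℂ) *
      ∑ n ∈ Finset.Ioc N (2 * N), c n * (n : ℂ) ^ (-ρ)‖ := by
    rw [norm_mul, Complex.norm_real, Real.norm_of_nonneg (by positivity)]
    have h2 : (N : ℝ) ^ σ ≤ (N : ℝ) ^ ρ.re := Real.rpow_le_rpow_of_exponent_le hN1 hρ1
    calc 4 * B = (N : ℝ) ^ σ * (1 / (C₁ * Real.log T)) := by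
          rw [hB]
          field_simp
      _ ≤ _ := mul_le_mul h2 hD (by positivity) (by positivity)
  rw [main] at b3
  have b4 := norm_add_le (∑ j ∈ Finset.range J, ((((-x) ^ j / (j.factorial : ℝ) : ℝ)) : ℂ) *
        DP N (fun n => c n * ((((N : ℝ) / n) ^ σ * Real.log ((n : ℝ) / N) ^ j : ℝ) : ℂ)) γ)
      (∑ n ∈ Finset.Ioc N (2 * N), c n * ((((N : ℝ) / n) ^ σ * E n : ℝ) : ℂ) *
        (n : ℂ) ^ (-((γ : ℂ) * I)))
  have b5 : 2 * B ≤ N * (C₁ * T ^ κ * (2 * (1 / 2) ^ J)) := by linarith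
  have b6 : T ^ κ ≤ T := by
    calc T ^ κ ≤ T ^ (1 : ℝ) := Real.rpow_le_rpow_of_exponent_le hT1.le hκ1
      _ = T := Real.rpow_one T
  have b7 := TAY_pow hT1 hJ
  have b8 : (N : ℝ) * (C₁ * T ^ κ * (2 * (1 / 2) ^ J)) ≤ T * (C₁ * T * (2 * (1 / T ^ (5 : ℕ)))) := by
    gcongr
  have b9 : T * (C₁ * T * (2 * (1 / T ^ (5 : ℕ)))) = 2 * C₁ / T ^ (3 : ℕ) := by
    field_simp
  have b10 : 1 / (2 * C₁ * Real.log T) ≤ 2 * B := by
    rw [hB]
    rw [div_le_iff₀ (by positivity)]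
    have : 2 * ((N : ℝ) ^ σ / (4 * C₁ * Real.log T)) * (2 * C₁ * Real.log T) = (N : ℝ) ^ σ := by
      field_simp
      ring
    rw [this]
    exact hNσ
  have b11 : 1 / (2 * C₁ * Real.log T) ≤ 2 * C₁ / T ^ (3 : ℕ) := by linarith
  rw [div_le_div_iff₀ (by positivity) (by positivity)] at b11
  have b12 : Real.log T ≤ T := (Real.log_le_sub_one_of_pos hT0).trans (by linarith)
  have b13 : 2 * C₁ * (2 * C₁ * Real.log T) ≤ 2 * C₁ * (2 * C₁ * T) := by gcongr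
  have b14 : 2 * C₁ * (2 * C₁ * T) < 1 * T ^ 3 := by
    have h1 : 2 * C₁ < T := by linarith
    have h2 : (2 * C₁) * (2 * C₁) < T * T := mul_lt_mul'' h1 h1 (by positivity) (by positivity)
    nlinarith
  linarith

end Pool.Agent.DH
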